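import Mathlib
import Pool.Agent.N709.UM.Prod

set_option autoImplicit false

/-!
MP_eb0bda_gt, Q1 (partial): let `G` be a locally compact group such that `Inn G` with the Birkhoff
topology is locally compact and minimal.  If `G` is second countable, or only `Inn G` with the
Birkhoff topology is second countable, then every power of `Inn G` is minimal.
-/

open Topology

namespace Pool.Agent.Results.MP_eb0bda_gt.SecondCountablePowers

universe u v

/-- A Hausdorff topological group `(G, t)` is minimal if every Hausdorff group topology `s` on `G`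
which is coarser than `t` (in Lean: `t ≤ s`) is equal to `t`. -/
structure MinimalGroup (G : Type u) [Group G] (t : TopologicalSpace G) : Prop where
  isTopologicalGroup : @IsTopologicalGroup G t _
  t2 : @T2Space G t
  minimal : ∀ s : TopologicalSpace G, @IsTopologicalGroup G s _ → @T2Space G s → t ≤ s → s = t

/-- The group of inner automorphisms of `G`. -/
abbrev Inn (G : Type u) [Group G] : Subgroup (MulAut G) := (MulAut.conj : G →* MulAut G).range

/-- The set `B(C, U)` of all inner automorphisms `f` such that `f g ∈ U g` and `f⁻¹ g ∈ U g` for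
all `g` in `C`. -/
def basic (G : Type u) [Group G] (C U : Set G) : Set (Inn G) :=
  {f : Inn G | ∀ g ∈ C, (f : MulAut G) g * g⁻¹ ∈ U ∧ ((f⁻¹ : Inn G) : MulAut G) g * g⁻¹ ∈ U}

/-- `s` is the Birkhoff topology of `Inn G`: the group topology whose neighbourhood base at the
identity consists of the sets `B(C, U)`, `C` compact, `U` a neighbourhood of `1`. -/
structure IsBirkhoff (G : Type u) [Group G] [TopologicalSpace G] (s : TopologicalSpace (Inn G)) :
    Prop where
  isTopologicalGroup : @IsTopologicalGroup (Inn G) s _
  nhds_one : ∀ V : Set (Inn G), V ∈ @nhds (Inn G) s 1 ↔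
    ∃ C : Set G, IsCompact C ∧ ∃ U ∈ 𝓝 (1 : G), basic G C U ⊆ V

/-- If `G` is a locally compact group, `Inn G` with the Birkhoff topology is locally compact and
minimal, and `G` or `Inn G` is second countable, then all powers of `Inn G` are minimal. -/
theorem result {G : Type u} [Group G] [TopologicalSpace G] [IsTopologicalGroup G] [T2Space G]
    [LocallyCompactSpace G] (s : TopologicalSpace (Inn G)) (hs : IsBirkhoff G s)
    (hlc : @LocallyCompactSpace (Inn G) s) (hmin : MinimalGroup (Inn G) s)
    (hsc : SecondCountableTopology G ∨ @SecondCountableTopology (Inn G) s) (I : Type v) :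
    MinimalGroup (I → Inn G) (@Pi.topologicalSpace I (fun _ => Inn G) (fun _ => s)) := by
  have hg : @IsTopologicalGroup (Inn G) s _ := hs.isTopologicalGroup
  have ht : @T2Space (Inn G) s := hmin.t2
  have h1 : @FirstCountableTopology (Inn G) s ∧ @SigmaCompactSpace (Inn G) s := by
    rcases hsc with hsc | hsc
    · have hb : @nhds (Inn G) s 1 = Pool.Agent.N709.UM.birk G := by
        apply le_antisymm
        · refine le_iInf fun C => le_iInf fun hC => le_iInf fun U => le_iInf fun hU => ?_
          rw [Filter.le_principal_iff]
          exact (hs.nhds_one _).2 ⟨C, hC, U, hU, subset_rfl⟩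
        · intro V hV
          obtain ⟨C, hC, U, hU, hCU⟩ := (hs.nhds_one V).1 hV
          refine Filter.mem_of_superset ?_ hCU
          exact Filter.mem_iInf_of_mem C (Filter.mem_iInf_of_mem hC (Filter.mem_iInf_of_mem U
            (Filter.mem_iInf_of_mem hU (Filter.mem_principal_self _))))
      exact (Pool.Agent.N850.UMINN.inn G s hg hb).2
    · exact ⟨inferInstance, inferInstance⟩
  obtain ⟨hfc, hsi⟩ := h1
  refine ⟨inferInstance, inferInstance, ?_⟩
  exact Pool.Agent.N709.UM.prod_min I (fun _ => Inn G) (fun _ => hmin.minimal)
    fun _ => Or.inl (Pool.Agent.N709.UM.star _ hmin.minimal)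

end Pool.Agent.Results.MP_eb0bda_gt.SecondCountablePowers
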